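import Pool.Agent.U201.EC.Core
import Pool.Agent.X324.CF.Plus2

set_option autoImplicit false

/-!
# The cone conjecture for the effective nef cone of `(A × F) / G`

Let `Y` be a smooth projective variety with `K_Y ≡ 0`. By Beauville and Bogomolov `Y = (A × F) / G`,
where `A` is an abelian variety, `F` is simply connected with trivial canonical bundle (a product of
irreducible symplectic and Calabi–Yau manifolds), and `G` is a finite group which acts freely and
diagonally. The theorem of this file says: if `F` satisfies the cone conjecture, then `Y` does. So Q1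
is reduced to simply connected varieties.

More precisely, let `A = V / Λ` be an abelian variety and `F` a normal projective variety,
`ℚ`-factorial with free class group, such that

* there is a rational polyhedral cone `Π_F ⊆ Nef(F) ∩ Eff(F)` whose translates under `Aut(F)` cover
  `Nef(F) ∩ Eff(F)`, and
* only finitely many automorphisms of `F` act trivially on `Cl(F)`. (This holds if `F` is smooth and
  has no holomorphic vector fields.)

`Aut(F)` can be infinite, and the nef cone of `F` need not be polyhedral; nothing is assumed about the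
action of `G` on `F` or on `Nef(F)`, and semiampleness of nef classes is not assumed. Let
`X = (A × F) / G`, where the finite group `G` acts diagonally (with or without fixed points). Then
`Nef(X)^e = Nef(X) ∩ Eff(X)` has a rational polyhedral fundamental domain for the action of `Aut(X)`;
the automorphisms of `X` which are induced by pairs (affine transformation of `V`, automorphism of
`F`) are sufficient. Moreover, `Nef(X)^e` is the convex hull `Nef(X)^+` of the rational nef classes.

The proof has three steps. (1) The Siegel property: only finitely many elements of a group of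
automorphisms of a rational cone move an interior point of a rational polyhedral cone into this cone
(`EC.siegel`). (2) Together with the finite kernel this shows that the conjugates of `G` which have
invariant classes in `Π_F` form finitely many types up to scalars, and so the automorphisms of `F` which
commute with `G` (up to scalars) move the `G`-invariant ample classes into finitely many rational
polyhedral cones (`EC.covering`). (3) For the hermitian forms on `V` this is reduction theory; the
automorphisms of both factors are combined (`EC.core'`).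

`NefF`, `EffF`, `IsAut`, `ext`, `IsConeVariety`, `Descends`, `IsPull` and `nefEff` are defined in
`Pool.Agent.U201.EC.Defs`; `rv` in `Pool.Agent.X324.CF.Poly`; `Cl`, `Semistable`, `SemiampleF`,
`Induces`, `Scal`, `Grp`, `base`, `Inv`, `IsQuotient`, `Sheaf`, `N1`, `val`, `integral`, `effective`,
`semiample`, `coneHull`, `nefCone` and `effCone` in `Pool.Agent.X324.CF.Defs`; `IsTorusQuotient` in
`Pool.Agent.W594.SYZ.Defs2`; `IsPositiveForm` in `Pool.Agent.W594.SYZ.TQDefs`; `LinGrp`, `Preserves`
and `IsFundDomain` in `Pool.Agent.Y167.Stm`; `cone` in `Pool.Agent.Y167.ConeDef`.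
-/

namespace Pool.Agent.Results.MP_e49dc9_ag.EquivariantDescent

open Pool.Agent.W594.SYZ2 Pool.Agent.X324.CF Pool.Agent.U201.EC
open Pool.Agent.Y167 (cone)
open Pool.Agent.Y167.CC (LinGrp Preserves IsFundDomain)

/-- The space `N^1(X)` of numerical classes with real coefficients. -/
abbrev NX {V R : Type*} [NormedAddCommGroup V] [NormedSpace ℂ V] [CommRing R] [Algebra ℂ R] {ρ : ℕ}
    (𝒜 : Cl ρ → Submodule ℂ R) (Γ : Grp V R) : Type _ := N1 𝒜 Γ (LinearMap.id : V →ₗ[ℂ] V)

/-- `𝒢` is a group of linear automorphisms of `N^1(X)` which preserves the integral classes and the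
effective nef cone, and which contains the pullbacks by all automorphisms of `X = (V × F) / Γ` which
are given by pairs `(f, φ)`, where `f` is an affine transformation of `V` and `φ` an automorphism of
`F`. The image of `Aut(X)` has these properties. -/
structure IsAutX {V R : Type*} [NormedAddCommGroup V] [NormedSpace ℂ V] [CommRing R] [Algebra ℂ R]
    {ρ : ℕ} {𝒜 : Cl ρ → Submodule ℂ R} {Γ : Grp V R} (u : Cl ρ) (𝒢 : LinGrp (NX 𝒜 Γ)) : Prop where
  int : Preserves 𝒢 (integral 𝒜 Γ LinearMap.id)
  nef_eff : Preserves 𝒢 (nefEff 𝒜 Γ LinearMap.id u)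
  pull : ∀ (f : V ≃ᵃ[ℂ] V) (φ : R ≃ₐ[ℂ] R) (σ : Cl ρ ≃+ Cl ρ), IsAut 𝒜 u φ σ →
    Descends 𝒜 Γ f φ → ∀ g, IsPull f σ g → g ∈ 𝒢

/-- Let `F` be a variety with Cox ring `R = ⨁ 𝒜 β` and ample class `u` which satisfies the cone
conjecture and has only finitely many automorphisms acting trivially on `Cl(F)`, and let
`X = (V × F) / Γ` be a projective quotient of `A × F` by a finite group acting diagonally. There is a
finite set `S` of integral classes such that the cone spanned by `S` is contained in the effective nef
cone of `X` and is a fundamental domain for the action of `𝒢` on this cone. Moreover, the effective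
nef cone is the convex hull of the rational nef classes. -/
theorem result {V R : Type*} [NormedAddCommGroup V] [NormedSpace ℂ V] [FiniteDimensional ℂ V]
    [CommRing R] [IsDomain R] [Algebra ℂ R] {ρ : ℕ}
    (𝒜 : Cl ρ → Submodule ℂ R) [GradedAlgebra 𝒜] (u : Cl ρ) (hF : IsConeVariety 𝒜 u)
    (Γ : Grp V R) (hX : IsQuotient 𝒜 u Γ)
    (hproj : ∃ (L : Sheaf 𝒜 Γ) (H : V → V → ℂ), L.IsChern H ∧ IsPositiveForm H)
    (𝒢 : LinGrp (NX 𝒜 Γ)) (h𝒢 : IsAutX u 𝒢) :
    (∃ S : Finset (NX 𝒜 Γ), ↑S ⊆ integral 𝒜 Γ LinearMap.id ∧ cone S ⊆ nefEff 𝒜 Γ LinearMap.id u ∧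
      IsFundDomain 𝒢 (nefEff 𝒜 Γ LinearMap.id u) (cone S)) ∧
    nefEff 𝒜 Γ LinearMap.id u = convexHull ℝ (nefCone 𝒜 Γ LinearMap.id u ∩
      {a | ∃ m : ℕ, 0 < m ∧ (m : ℝ) • a ∈ integral 𝒜 Γ LinearMap.id}) := by
  obtain ⟨H₀, Rl⟩ := rel_id hX hproj
  refine ⟨core' hF hX Rl 𝒢
    ⟨h𝒢.int, h𝒢.nef_eff, fun f φ σ h1 h2 _ g hg => h𝒢.pull f φ σ h1 h2 g hg⟩, ?_⟩
  rw [cp_eqN hF hX Rl, closure_eqN hF hX Rl,
    cp_eq_convexHull KN_zero fun t ht a ha => KN_smul ht ha]
  rfl

end Pool.Agent.Results.MP_e49dc9_ag.EquivariantDescent
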