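import Pool.Agent.U660.MD.Nef
import Pool.Agent.U189.FV.Top

/-!
# Nef cones and their fundamental domains on the modifications of arbitrary varieties with a finite
# morphism to a toric variety

**The varieties.** Let `Y` be any normal projective variety of dimension `n ≥ 1` over `ℂ` with the
function field `K`, and `x 0, ..., x n` sections of an ample line bundle `H` on `Y` without common zeros.
They define a finite morphism from `Y` to the projective `n`-space. `X` is the normalization in `K` of the
toric modification of the projective space which is given by `fan`: a modification of `Y` with a finite
morphism to a toric variety, and a toroidal modification of `Y` if the divisors `x k = 0` have normal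
crossings (see `Pool/Agent/U189/FV/Top.lean`, where the definitions `affine`, `minimalOrder`,
`multiplicities`, `InCone`, `IsFan` and `coefficient` are explained). `D 1, ..., D p` are the pullbacks to
`X` of toric `ℚ`-Cartier divisors; the coefficients of their pullbacks at the prime divisors `P` over `X` are
the `δ i P`.

**The theorem.** Let `X'` be any projective variety which is isomorphic to `X` in codimension one, such
that the strict transforms of the `D i` are `ℚ`-Cartier and some combination of them is ample
(`IsSmallModification`, with the coefficients `δ'`; `X' = X` is allowed if some combination of the `D i` is
ample on `X`). The cone of the nef real combinations of the `D i` is spanned by finitely many integral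
combinations, which are base point free on `X'` (in particular all nef classes in the span are effective).
If the `D i` are numerically independent on `X'` then EVERY group `Γ` of invertible integral matrices which
preserves this cone (for instance `Aut(X')`, if the classes of the `D i` are a basis of `N¹(X')`, or the
subgroup of `Aut(X')` which preserves the span of the `D i`) acts through a finite group and has a
rational polyhedral fundamental domain on it, spanned by base point free divisors: this is the
assertion of the cone conjecture for the span of the `D i`.

**Varieties with `K = 0`.** Let `V` be a normal projective variety with `K_V` `ℚ`-linearly equivalent to a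
rational multiple of `H`, and `x k` sections of `H` which define multiples of divisors with normal
crossings. Let `Y` be an abelian cover of `V` which is branched along the divisors `x k = 0`, with torsion
`K_Y` (for instance the double covers of any Fano variety `V` which are branched along members of
`|- 2 K_V|` with at most `n + 1` components in multiples of `H`), and `X` a crepant toroidal (partial)
resolution of `Y`. If the Picard number of `V` is `1`, `n ≥ 3`, `V` is smooth and only strata which are
irreducible are modified, then the `D i` can be chosen as a basis of `N¹(X)` (a theorem of
Lefschetz type). These remarks are not used and not proved here.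

**Relation to the other results.** `MP_ad47bb_ag.NormalCrossingModels` is about the abelian covers `Y` of the
projective `n`-space which are branched along `n + 1` hypersurfaces with normal crossings (there the
`x k` are powers of the forms of the hypersurfaces). Here `Y` is arbitrary, for instance a cover of an
arbitrary Fano variety `V`. The movable cones are in `MP_e39d36_ag.FiniteCoverMovableCones`.

**Proof.** New is the finite generation of the Cox ring of the `D i` (`Pool/Agent/U189/FV`): the sections
are integral over the sections on the toric variety, and they are contained in a finitely generated
module over the algebra of the monomials in a cone; every `Y` with a finite morphism to the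
projective space is allowed. The deduction from the finite generation is the library of `helper660`
(`Pool/Agent/U660/MD`).
-/

set_option autoImplicit false

open FF MvPolynomial Pool.Agent.W602.GT

namespace Pool.Agent.Results.MP_e49dc9_ag.FiniteCoverNefCones

open Pool.Agent.Results.MP_89a3f8_ag.TerminationOfFlips
  (IsSection BasePointFree Semiample IsSmallModification)
open Pool.Agent.U660.MD
open Pool.Agent.U189.ND (affine minimalOrder InCone)
open Pool.Agent.U189.FV

/-- **Nef cones.** Let `K` be the function field of
a normal projective variety `Y` of dimension `n`, `x 0, ..., x n` sections of an ample line bundle without
common zeros, `X` the normalization in `K` of the toric modification of the projective `n`-space which is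
given by `fan`, and `D i`, `i < p`, the pullbacks of toric `ℚ`-Cartier divisors with the degrees `β i` and the
coefficients `c i`.
For each small modification `X'` of `X` (with the coefficients `δ'`) the cone of the nef real
combinations is spanned by finitely many base point free integral ones. If the `D i` are numerically
independent on `X'`, every group `Γ` of invertible integral matrices which preserves the nef cone is
finite, and some cone which is spanned by finitely many combinations which are base point free on `X'`
is a fundamental domain for the action of `Γ` on the nef cone. -/
theorem result (n p : ℕ) (hn : 1 ≤ n) (K : Type) [Field K] [Algebra ℂ K] (x : Fin (n + 1) → K)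
    (hx0 : x 0 ≠ 0) (hbas : IsTranscendenceBasis ℂ (affine x))
    (hfin : FiniteDimensional (IntermediateField.adjoin ℂ (Set.range (affine x))) K)
    (fan : Finset (Finset (Fin (n + 1) → ℕ))) (hfan : IsFan fan)
    (c : Fin p → (Fin (n + 1) → ℕ) → ℚ) (β : Fin p → ℤ)
    (u : Finset (Fin (n + 1) → ℕ) → Fin p → Fin (n + 1) → ℚ)
    (hlin : ∀ σ ∈ fan, ∀ i v, (∃ k, v k = 0) → InCone σ v → c i v = ∑ k, u σ i k * v k)
    (δ : Fin p → Place ℂ K → ℚ) (hδ : ∀ i P, δ i P = coefficient x (c i) (β i) P) :
    ∀ δ' : Fin p → Place ℂ K → ℚ, IsSmallModification n δ δ' →
      (∃ (B : ℕ) (h : Fin B → Fin p → ℤ), (∀ b, BasePointFree n δ' (h b)) ∧
        {lam | IsNef n δ' lam} = coneOf h) ∧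
      ((∀ lam, IsNef n δ' lam → IsNef n δ' (-lam) → lam = 0) →
        ∀ Γ : Subgroup (Matrix (Fin p) (Fin p) ℤ)ˣ,
          (∀ γ ∈ Γ, ∀ lam, IsNef n δ' lam → IsNef n δ' (apply γ lam)) →
          Finite Γ ∧ ∃ (M : ℕ) (π : Fin M → Fin p → ℤ), (∀ b, BasePointFree n δ' (π b)) ∧
            IsFundamentalDomain Γ {lam | IsNef n δ' lam} (coneOf π)) :=
  fun _ hδ' => nef_main (cox_fv n p hn K x hx0 hbas hfin fan hfan c β u hlin δ hδ) hδ'

end Pool.Agent.Results.MP_e49dc9_ag.FiniteCoverNefCones
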