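import Pool.Agent.U201.NP.Main
import Pool.Agent.U201.NP.Prod

set_option autoImplicit false

/-!
# When is `Nef(X)^+ = Nef(X)^e`?

Let `A = V / Λ` be an abelian variety, `F` any normal projective variety, `ℚ`-factorial with free class
group, and `X = (A × F) / G`, where a finite group `G` acts diagonally (freely or not). By Beauville
and Bogomolov every smooth projective variety `Y` with `K_Y ≡ 0` is of this form, where `F` is a
product of strict Calabi–Yau and irreducible symplectic manifolds.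

The cone conjecture for `Y` contains the equality `Nef(Y)^+ = Nef(Y)^e`; the inclusion
`Nef(Y)^+ ⊆ Nef(Y)^e` (rational nef classes are effective) is open in general. The theorem of this file
reduces it to the factors of `F`; nothing is assumed about `F`, in particular not the cone conjecture:

* a rational nef class of `X` is effective if and only if its restriction to `F` is in `Eff(F)`;
* `Nef(X)^+ ⊆ Nef(X)^e` if and only if all nef classes in `Cl(F)` which are invariant under `G` are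
  in `Eff(F)`;
* `Nef(X)^e ⊆ Nef(X)^+` if and only if every `G`-invariant real class in `Nef(F) ∩ Eff(F)` is in the
  cone spanned by the `G`-invariant nef classes in `Cl(F)`;
* the set of the varieties `F` whose nef classes are effective is closed under products.

So if the nef classes of all the factors of `F` are effective, then the same is true for `X`.

The proof. The nef cone of `X` consists of the classes with semidefinite form and nef degree
(`NS.closure_eqN`, for all projective `F`). A rational semidefinite form gives a line bundle on `A / G`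
some power of which has a section, and the norm of a section of `O_F(β)` is a section of the sheaf
given by the sum of the translates of `β`; in the real effective cone this is enough for all invariant
classes in `Eff(F)` (`NP.i2_eff`, `NP.int_eff`).
-/

namespace Pool.Agent.Results.MP_e49dc9_ag.NefPlus

open Pool.Agent.W594.SYZ2 Pool.Agent.X324.CF Pool.Agent.U201.EC Pool.Agent.U201.NS
  Pool.Agent.U201.NP Pool.Agent.U201.PR

/-- The space `N^1(X)` of numerical classes with real coefficients. -/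
abbrev NX {V R : Type*} [NormedAddCommGroup V] [NormedSpace ℂ V] [CommRing R] [Algebra ℂ R] {ρ : ℕ}
    (𝒜 : Cl ρ → Submodule ℂ R) (Γ : Grp V R) : Type _ := N1 𝒜 Γ (LinearMap.id : V →ₗ[ℂ] V)

/-- The cone `Nef(X)^+`: the convex hull of the rational nef classes. -/
def nefPlus {V R : Type*} [NormedAddCommGroup V] [NormedSpace ℂ V] [CommRing R] [Algebra ℂ R]
    {ρ : ℕ} (𝒜 : Cl ρ → Submodule ℂ R) (Γ : Grp V R) (u : Cl ρ) : Set (NX 𝒜 Γ) :=
  convexHull ℝ (nefCone 𝒜 Γ LinearMap.id u ∩
    {a | ∃ m : ℕ, 0 < m ∧ (m : ℝ) • a ∈ integral 𝒜 Γ LinearMap.id})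

theorem result :
    (∀ {V R : Type} [NormedAddCommGroup V] [NormedSpace ℂ V] [FiniteDimensional ℂ V]
      [CommRing R] [IsDomain R] [Algebra ℂ R] {ρ : ℕ} (𝒜 : Cl ρ → Submodule ℂ R)
      [GradedAlgebra 𝒜] (u : Cl ρ), IsProj 𝒜 u → ∀ Γ : Grp V R, IsQuotient 𝒜 u Γ →
      (∃ (L : Sheaf 𝒜 Γ) (H : V → V → ℂ), L.IsChern H ∧ IsPositiveForm H) →
      (∀ x : NX 𝒜 Γ, x ∈ nefCone 𝒜 Γ LinearMap.id u → ∀ m : ℕ, 0 < m →
        (m : ℝ) • x ∈ integral 𝒜 Γ LinearMap.id →
        (x ∈ effCone 𝒜 Γ LinearMap.id ↔ (val x).2 ∈ EffF 𝒜)) ∧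
      (nefPlus 𝒜 Γ u ⊆ nefEff 𝒜 Γ LinearMap.id u ↔
        ∀ β, X324.CF.Inv 𝒜 Γ β → rv β ∈ NefF 𝒜 u → rv β ∈ EffF 𝒜) ∧
      (nefEff 𝒜 Γ LinearMap.id u ⊆ nefPlus 𝒜 Γ u ↔
        ∀ b ∈ Submodule.span ℝ {b | ∃ β, X324.CF.Inv 𝒜 Γ β ∧ b = rv β}, b ∈ NefF 𝒜 u ∩ EffF 𝒜 →
          b ∈ coneHull {b | ∃ β, (X324.CF.Inv 𝒜 Γ β ∧ rv β ∈ NefF 𝒜 u) ∧ b = rv β})) ∧
    (∀ 𝒞 : Variety → Prop, (∀ F, 𝒞 F → NefIsEff F) → ∀ F, ProductOf 𝒞 F → NefIsEff F) := by
  refine ⟨?_, fun _ h𝒞 _ hF => nefIsEff_prod h𝒞 hF⟩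
  intro V R _ _ _ _ _ _ ρ 𝒜 _ u F Γ hX hproj
  obtain ⟨H₀, Rl⟩ := rel_id hX hproj
  exact ⟨fun x hx m hm h => rat_eff F hX Rl hx hm h, plus_sub F hX Rl, sub_plus F hX Rl⟩

end Pool.Agent.Results.MP_e49dc9_ag.NefPlus
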