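import Pool.Agent.U201.PR.Fin

set_option autoImplicit false

/-!
# The cone conjecture for products

Let `Y` be a smooth projective variety with `K_Y ≡ 0`. By Beauville and Bogomolov
`Y = (A × F₁ × … × F_k) / G`, where `A` is an abelian variety, the `F_i` are irreducible holomorphic
symplectic manifolds and Calabi–Yau manifolds in the strict sense, and `G` is a finite group. The cone
conjecture for `(A × F) / G`, `F = F₁ × … × F_k`, follows from the cone conjecture for `F`
(`MP_e49dc9_ag.EquivariantDescent`). The theorem of this file reduces it further to the `F_i`: the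
class of the varieties which satisfy the hypothesis of this result is closed under products.

Let `𝒞` be a set of normal projective varieties `F_i`, `ℚ`-factorial with free class group, such that

* there is a rational polyhedral cone in `Nef(F_i) ∩ Eff(F_i)` whose translates under `Aut(F_i)` cover
  `Nef(F_i) ∩ Eff(F_i)`, and
* only finitely many automorphisms of `F_i` act trivially on `Cl(F_i)`.

Then every product of finitely many varieties in `𝒞` has the same properties. Moreover, the nef cone
and the effective cone of a product are the products of the nef cones and of the effective cones, and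
every automorphism (of the Cox ring) which acts trivially on the class group is a product of
automorphisms.

The varieties are given by their Cox rings, and by the Künneth formula the Cox ring of a product is the
tensor product of the Cox rings. The proof: a section of `O(β₁, β₂)` on `F₁ × F₂` is a sum of products
of sections, so the cones are products; an automorphism which acts trivially on the classes preserves
the two Cox rings in the tensor product, as these are spanned by the pieces of degree `(β₁, 0)` and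
`(0, β₂)` (`PR.split_aut`).
-/

namespace Pool.Agent.Results.MP_e49dc9_ag.ProductVarieties

open Pool.Agent.X324.CF Pool.Agent.U201.EC Pool.Agent.U201.PR

theorem result :
    (∀ 𝒞 : Variety → Prop, (∀ F, 𝒞 F → Good F) → ∀ F, ProductOf 𝒞 F → Good F) ∧
    ∀ (F₁ F₂ : Variety) (R : Type) [CommRing R] [Algebra ℂ R] [IsDomain R]
      (𝒜 : Cl (F₁.ρ + F₂.ρ) → Submodule ℂ R) [GradedAlgebra 𝒜] (ι₁ : F₁.R →ₐ[ℂ] R)
      (ι₂ : F₂.R →ₐ[ℂ] R), Good F₁ → Good F₂ → IsProduct F₁.𝒜 F₂.𝒜 𝒜 ι₁ ι₂ →
      (∀ b, b ∈ NefF 𝒜 (Fin.append F₁.u F₂.u) ↔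
        pr1 b ∈ NefF F₁.𝒜 F₁.u ∧ pr2 b ∈ NefF F₂.𝒜 F₂.u) ∧
      (∀ b, b ∈ EffF 𝒜 ↔ pr1 b ∈ EffF F₁.𝒜 ∧ pr2 b ∈ EffF F₂.𝒜) ∧
      (∀ φ : R ≃ₐ[ℂ] R, Induces 𝒜 φ (AddEquiv.refl _) →
        ∃ (φ₁ : F₁.R ≃ₐ[ℂ] F₁.R) (φ₂ : F₂.R ≃ₐ[ℂ] F₂.R), Induces F₁.𝒜 φ₁ (AddEquiv.refl _) ∧
          Induces F₂.𝒜 φ₂ (AddEquiv.refl _) ∧ (∀ a, φ (ι₁ a) = ι₁ (φ₁ a)) ∧
            ∀ a, φ (ι₂ a) = ι₂ (φ₂ a)) :=
  ⟨fun _ h𝒞 _ hF => good_prod h𝒞 hF, fun _ _ _ _ _ _ _ _ _ _ h1 h2 P => cones_prod h1 h2 P⟩

end Pool.Agent.Results.MP_e49dc9_ag.ProductVarieties
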